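import Pool.Agent.H932.V.Level

/-!
# Jumping lines through a point, with the directions of their maximal subbundles

Let `E` be a rank two vector bundle on `P^n` which does not split, `P` a point of `P^n` and `ε` a
nonzero vector of the fibre `E(P)`.  A line `L` through `P` with `E|_L ≅ O(a) ⊕ O(b)`, `a ≥ b`, has
the level at least `k` if `a - b ≥ k + 1`, or if `a - b = k` and (for `k > 0`) the subbundle `O(a)`
of `E|_L` contains the vector `ε`.  So every line has the level at least `0`.

Let `Λ` be a linear subspace through `P`.  Suppose that every linear subspace `M` of codimension `c`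
in `Λ` through `P` contains infinitely many lines through `P` of level at least `k`.  Then `Λ`
contains a line through `P` of level at least `k + c + 1`.

For `k = 0` the hypothesis holds for the planes `M` through `P`, so if `Λ` has the dimension
`m ≥ 2`, then `Λ` contains a line through `P` with `a - b ≥ m`, or with `a - b = m - 1` and such
that the subbundle `O(a)` contains the given vector `ε`.
-/

set_option autoImplicit false

open MvPolynomial H960VB

namespace Pool.Agent.Results.MP_b01859_ag.DirectionLevels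

/-- `g` is a section of the twist `E(-q)` on the line through `[P]` and `[Q]`, which is
parametrised by `z ↦ z 0 • P + z 1 • Q`; its value at the point `P` is `evv g ![1, 0]`. -/
def LineSection {n : ℕ} (E : Bundle2 n) (P Q : Fin (n + 1) → ℂ) (q : ℤ)
    (g : Fin E.a → MvPolynomial (Fin 2) ℂ) : Prop :=
  (∀ i, HomZ (g i) (E.β i - q)) ∧
    ∀ z : Fin 2 → ℂ, z ≠ 0 → evv g z ∈ E.fib (z 0 • P + z 1 • Q)

/-- The line `L` through `[P]` and `[Q]` has the level at least `k` with respect to the vector `ε`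
of the fibre at `P`: `E|_L ≅ O(a) ⊕ O(b)` with `b ≤ a`, and either `k + 1 ≤ a - b`, or `a - b = k`
and (if `k ≠ 0`) some section of `E|_L(-a)` has the value `ε` at `P`. -/
def Level {n : ℕ} (E : Bundle2 n) (P Q : Fin (n + 1) → ℂ) (ε : Fin E.a → ℂ) (k : ℕ) : Prop :=
  ∃ a b : ℤ, E.SplitsOn P Q a b ∧ b ≤ a ∧ ((k : ℤ) + 1 ≤ a - b ∨ ((k : ℤ) = a - b ∧
    (k = 0 ∨ ∃ g : Fin E.a → MvPolynomial (Fin 2) ℂ, LineSection E P Q a g ∧ evv g ![1, 0] = ε)))

theorem result {n : ℕ} (E : Bundle2 n) (hE : ¬ E.Splits)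
    -- a point and a nonzero vector of the fibre at the point
    (P : Fin (n + 1) → ℂ) (hP : P ≠ 0) (ε : Fin E.a → ℂ) (hε : ε ∈ E.fib P) (hε0 : ε ≠ 0)
    (k c : ℕ) (Λ : Submodule ℂ (Fin (n + 1) → ℂ)) (hPΛ : P ∈ Λ) (hΛ : c + 3 ≤ Module.finrank ℂ Λ)
    -- all subspaces of codimension `c` contain infinitely many lines of level at least `k`
    (h : ∀ M ≤ Λ, P ∈ M → Module.finrank ℂ M + c = Module.finrank ℂ Λ →
      ∃ Q : ℕ → Fin (n + 1) → ℂ, (∀ i, Q i ∈ M ∧ Level E P (Q i) ε k) ∧
        ∀ i j, i ≠ j → LinearIndependent ℂ ![P, Q i, Q j]) :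
    ∃ Q ∈ Λ, LinearIndependent ℂ ![P, Q] ∧ Level E P Q ε (k + c + 1) := by
  have hn : 1 ≤ n := by
    have := Submodule.finrank_le Λ
    simp at this
    omega
  obtain ⟨c₁, hc⟩ := Y208PT.exists_chern hn E
  induction c generalizing Λ with
  | zero =>
    obtain ⟨Q, hQ, hQi⟩ := h Λ le_rfl hPΛ (by omega)
    refine H932V.step E hE c₁ hc P hP ε hε hε0 k Λ hPΛ (by omega) Q (fun i => ?_) hQi
    refine ⟨(hQ i).1, ?_, (hQ i).2⟩
    have h1 := (hQi i (i + 1) (by omega))
    rw [Fintype.linearIndependent_iff] at h1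
    rw [LinearIndependent.pair_iff]
    intro s t hst
    have h2 := h1 ![s, t, 0] (by
      rw [Fin.sum_univ_three]
      simpa using hst)
    exact ⟨by simpa using h2 0, by simpa using h2 1⟩
  | succ c ih =>
    obtain ⟨Q, hQ, hQi⟩ := Y208PT.exists_lines Λ hPΛ hP (by omega)
      (fun Q => H932V.Lv E P Q ε (k + c + 1)) (by
        intro M hM hPM hMf
        exact ih M hPM (by omega) (fun M' hM' hPM' hMf' => h M' (hM'.trans hM) hPM' (by omega)))
    exact H932V.step E hE c₁ hc P hP ε hε hε0 (k + c + 1) Λ hPΛ (by omega) Q hQ hQi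

end Pool.Agent.Results.MP_b01859_ag.DirectionLevels
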