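import Pool.Agent.H932.W.Fin

/-!
# Rank two bundles whose lines have the gap at most `m - 1` split

For a rank two vector bundle `E` on `P^n` and a line `L`, let `E|_L ≅ O(a) ⊕ O(b)`, `a ≥ b`; the
number `a - b` is the gap of `L`.  It was known that the lines through one point of a linear
subspace of dimension `m ≥ 2` have gaps `≥ m - 1` if `E` does not split, and `T_{P^2}` (`m = 2`) and
the null correlation bundle (`m = 3`) show that the gap `m - 1` can be the largest one.

Here it is shown that `m - 1` is never the largest gap if `m ≥ 5`: a linear subspace of dimension
`m ≥ 5` contains a line with the gap at least `m`, unless `E` splits.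

The proof: suppose that all gaps are `≤ m - 1 =: G`.  Then for every point `y` and every direction
in the fibre `E(y)` there is a line of gap `G` through `y` whose maximal subbundle has this
direction, there is a line of gap `≤ 1`, and there is a line `A` of gap exactly `G - 2`.  The maximal
subbundle of `E|_A` gives a direction at every point of `A`, so one gets a complete curve of lines of
gap `G` meeting `A`.  The comparison of two frames of the spaces of sections of `E(j)|_L` for the
lines `L` of this curve gives a nowhere vanishing regular function on a cone over the curve, which is
homogeneous of negative degree.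
-/

set_option autoImplicit false

open MvPolynomial H960VB

namespace Pool.Agent.Results.MP_b01859_ag.GapAtLeastDimension

theorem result {n : ℕ} (E : Bundle2 n) (m : ℕ) (hm : 5 ≤ m)
    -- a linear subspace of (projective) dimension `m ≥ 5`
    (Λ : Submodule ℂ (Fin (n + 1) → ℂ)) (hΛ : Module.finrank ℂ Λ = m + 1)
    -- all its lines have the gap at most `m - 1`
    (h : ∀ A ∈ Λ, ∀ B ∈ Λ, LinearIndependent ℂ ![A, B] →
      ∃ a b : ℤ, E.SplitsOn A B a b ∧ |a - b| ≤ (m : ℤ) - 1) :
    E.Splits :=
  H932W.thmN_subspace E m hm Λ hΛ h

end Pool.Agent.Results.MP_b01859_ag.GapAtLeastDimension
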