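import Pool.Agent.H932.L.Fin2

/-!
# Rank two bundles on projective space: lines which meet no line of large gap

Let `E` be a rank two bundle on `P^n` which does not split, `Λ` a linear subspace of dimension
`m ≥ 5`, and let `AB` be a line in `Λ` such that every line of `Λ` which meets it has the gap (the
difference of the degrees of the two summands) at most `m - 1`.  Then the gap `g` of `AB` is `m - 1`
or at most `(m - 3) / 2`, and the number of jumping lines of a pencil in `Λ`, a line counted with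
half of its gap, is bounded: `4 s ≤ (m - 1) (m - 1 - 2 g) + 1`, and `4 s ≤ (m - 1)² + 1` if
`g = m - 1`.  So a line of gap `g` with `m - 2 ≤ 2 g`, `g ≠ m - 1`, meets a line of gap at least `m`,
and so does every line if there are many jumping lines.

The proof: put `G = m - 1`.  By the level theorem there is, for every point `y` of the line `A = AB`
and every direction in the fibre `E(y)`, a line of gap `G` through `y` whose maximal subbundle has
this direction.  If `g < G`, the larger summand of `E|_A` prescribes the directions, and one gets a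
complete curve of lines of gap `G` which meet `A`.  The comparison of two frames of the spaces of
sections of a twist `E(j)|_L` on the lines `L` of the curve is a nowhere vanishing function, which is
homogeneous of the degrees `G (1 - g) / 2 + d` and `d' - G (G - 1) / 2`, where `(d, d')` is the
bidegree of the determinant of these spaces of sections on the family of all lines.  A pencil of lines
shows that `s ≤ ⌊(G - 1)² / 4⌋ - d`, because a determinant of this degree vanishes of order
`⌊gap / 2⌋` at the jumping lines.  The case `g = G` follows as the set of the lines which meet a line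
of gap at least `m` is closed.
-/

open H960VB H960VB.Bundle2

namespace Pool.Agent.Results.MP_b01859_ag.MildLines

/-- The pencil of the lines through the point `x` and the points `R + t S`, `t ∈ ℂ` (all the lines
but one through `x` in the plane of `x`, `R`, `S`): the lines have the gap at most `m - 1`, one of
them has the gap at most one, and for `t ∈ F` the gap of the line is at least `2 h(t)`. -/
structure Pencil {n : ℕ} (E : Bundle2 n) (Λ : Submodule ℂ (Fin (n + 1) → ℂ)) (m : ℕ)
    (x R S : Fin (n + 1) → ℂ) (F : Finset ℂ) (h : ℂ → ℕ) : Prop where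
  mem : x ∈ Λ ∧ R ∈ Λ ∧ S ∈ Λ
  lines : ∀ t : ℂ, LinearIndependent ℂ ![x, R + t • S]
  gap : ∀ t : ℂ, ∃ p q : ℤ, E.SplitsOn x (R + t • S) p q ∧ |p - q| ≤ (m : ℤ) - 1
  low : ∃ t : ℂ, ∃ p q : ℤ, E.SplitsOn x (R + t • S) p q ∧ |p - q| ≤ 1
  jump : ∀ t ∈ F, ∃ p q : ℤ, E.SplitsOn x (R + t • S) p q ∧ 2 * (h t : ℤ) ≤ |p - q|

theorem result {n : ℕ} (E : Bundle2 n) (hE : ¬ E.Splits) (m : ℕ) (hm : 5 ≤ m)
    (Λ : Submodule ℂ (Fin (n + 1) → ℂ)) (hΛ : Module.finrank ℂ Λ = m + 1)
    (A B : Fin (n + 1) → ℂ) (hA : A ∈ Λ) (hB : B ∈ Λ) (hAB : LinearIndependent ℂ ![A, B])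
    (a b : ℤ) (hab : E.SplitsOn A B a b)
    (hmeet : ∀ P ∈ Submodule.span ℂ {A, B}, ∀ Q ∈ Λ, LinearIndependent ℂ ![P, Q] →
      ∀ p q : ℤ, E.SplitsOn P Q p q → |p - q| ≤ (m : ℤ) - 1) :
    (|a - b| ≠ (m : ℤ) - 1 → 2 * |a - b| ≤ (m : ℤ) - 3) ∧
    ∀ (x R S : Fin (n + 1) → ℂ) (F : Finset ℂ) (h : ℂ → ℕ), Pencil E Λ m x R S F h →
      4 * (∑ t ∈ F, (h t : ℤ)) ≤ ((m : ℤ) - 1) * ((m : ℤ) - 1) + 1 ∧
      (|a - b| ≠ (m : ℤ) - 1 →
        4 * (∑ t ∈ F, (h t : ℤ)) ≤ ((m : ℤ) - 1) * ((m : ℤ) - 1 - 2 * |a - b|) + 1) := by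
  obtain ⟨k, rfl⟩ : ∃ k, m = k + 1 := ⟨m - 1, by omega⟩
  have hk : (((k + 1 : ℕ) : ℤ)) - 1 = k := by push_cast; ring
  have hmild : H932L.Mild E Λ k A B := by
    intro P hP Q hQ hPQ p q hpq
    have h1 := hmeet P hP Q hQ hPQ p q hpq
    rw [hk] at h1
    exact (le_abs_self _).trans h1
  have hgap : |a - b| ≤ k := by
    have h1 := hmeet A (Submodule.subset_span (Set.mem_insert _ _)) B hB hAB a b hab
    rwa [hk] at h1
  rw [hk]
  refine ⟨fun hne => ?_, fun x R S F h H => ?_⟩
  · have h1 := H932L.gap_le E hE (by omega : 4 ≤ k) Λ hΛ hA hB hAB hmild hab (by omega)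
    push_cast
    omega
  · have H' : H932L.Pen E Λ k x R S F h := by
      refine ⟨H.mem.1, H.mem.2.1, H.mem.2.2, H.lines, fun t => ?_, H.low, H.jump⟩
      obtain ⟨p, q, h1, h2⟩ := H.gap t
      rw [hk] at h2
      exact ⟨p, q, h1, h2⟩
    refine ⟨H932L.pen_le_all E hE (by omega) Λ hΛ hA hB hAB hmild H', fun hne => ?_⟩
    exact H932L.pen_le E hE (by omega) Λ hΛ hA hB hAB hmild hab (by omega) H'

end Pool.Agent.Results.MP_b01859_ag.MildLines
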