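import Pool.Agent.H932.W.Types
import Pool.Agent.H932.W.Fin

/-!
# The number of the splitting types on the lines through a point

Let `E` be a rank two vector bundle on `P^n` which does not split, `Λ` a linear subspace of `P^n` of
dimension `m` and `P` a point of `Λ`.  For a line `L` let `E|_L ≅ O(a) ⊕ O(b)`; as `a + b` is the first
Chern class, the splitting type of `L` is given by the gap `|a - b|`.

**Theorem.** At least `m / 2` different splitting types occur on the lines through `P` in `Λ`, and at
least `(m + 1) / 2` if one of them has the gap zero.

In other words: if only `k` different types occur on the lines of `Λ` through one of its points, then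
`E` splits if `m ≥ 2 k + 1`, and already if `m = 2 k` if the gap zero occurs.  For `k = 1` this is
a pointwise version of Van de Ven's theorem on uniform bundles; it is sharp for the tangent bundle of
the plane (`k = 1`, `m = 2`) and for the null correlation bundle (gaps `0`, `2`, `m = 3`).  On `P^4` at
least two types occur on the lines through each point, and at least three if the gap zero occurs.

The proof.  Fix a vector `ε ≠ 0` of the fibre at `P`.  A line has the level at least `k` if its gap
is at least `k + 1`, or if it is `k` and the larger summand contains `ε`.  By the step theorem of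
`MP_b01859_ag.DirectionLevels` infinitely many lines of level at least `k` in a subspace force a line of
level at least `k + 1` in it.  The possible levels of a line of gap `g` are `g - 1` and `g`, so with `k`
gaps there are at most `2 k` levels (`2 k - 1`, if zero is a gap), and the minimal level which is forced
rises with each dimension.
-/

set_option autoImplicit false

open MvPolynomial H960VB

namespace Pool.Agent.Results.MP_b01859_ag.NumberOfTypes

theorem result {n : ℕ} (E : Bundle2 n) (hE : ¬ E.Splits) (m : ℕ)
    -- a linear subspace of (projective) dimension `m` and a point of it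
    (Λ : Submodule ℂ (Fin (n + 1) → ℂ)) (hΛ : Module.finrank ℂ Λ = m + 1)
    (P : Fin (n + 1) → ℂ) (hPΛ : P ∈ Λ) (hP : P ≠ 0)
    -- `S` contains the gaps of all lines through the point in the subspace
    (S : Finset ℕ) (hS : ∀ Q ∈ Λ, LinearIndependent ℂ ![P, Q] →
      ∃ a b : ℤ, E.SplitsOn P Q a b ∧ (a - b).natAbs ∈ S) :
    m ≤ 2 * S.card ∧ (0 ∈ S → m + 1 ≤ 2 * S.card) := by
  rcases Nat.eq_zero_or_pos m with rfl | hm
  · refine ⟨Nat.zero_le _, fun h0 => ?_⟩
    have := Finset.card_pos.2 ⟨0, h0⟩
    omega
  · have h := H932W.types E hE m hm Λ hΛ P hPΛ hP S (by
      intro Q hQ hPQ a b hab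
      obtain ⟨a', b', hab', h1⟩ := hS Q hQ hPQ
      have h2 := H932W.type_unique E hPQ hab hab'
      have h3 : (a - b).natAbs = (a' - b').natAbs := by
        rw [Int.abs_eq_natAbs, Int.abs_eq_natAbs] at h2
        exact_mod_cast h2
      rwa [h3])
    refine ⟨h.trans (H932W.card_lvs S), fun h0 => ?_⟩
    have := H932W.card_lvs_zero h0
    omega

end Pool.Agent.Results.MP_b01859_ag.NumberOfTypes
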